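import Mathlib
import Pool.Agent.KS6_95.RK.Asm
import Pool.Agent.KS6_95.RK.Tor

/-!
# Rationally connected almost Kähler manifolds with arbitrary symplectic fundamental groups

For every closed connected symplectic manifold `Y` the product `P¹ × P¹ × Y`, with the product
symplectic form, carries a compatible almost complex structure which satisfies `(RC_A)` for some
class `A`, and it has the fundamental group of `Y`.
-/

open scoped Manifold ContDiff Topology
open Metric Set Bundle
open Pool.Agent.Helper206.Cover (R3 P1 cross EndoField)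
open Pool.Agent.Helper206.Rat (SymplecticForm AlmostComplex IsCompatible IsHolomorphic
  RationalCurve)
open Pool.Agent.Helper449.RC (H2 H2map curveClass)
open Pool.Agent.KS6_95.RK

noncomputable section

namespace Pool.Agent.Results.MP_3c8839_gt.AllFundamentalGroups

section Statement

variable
  {E' : Type*} [NormedAddCommGroup E'] [NormedSpace ℝ E'] {H' : Type*} [TopologicalSpace H']
  {I' : ModelWithCorners ℝ E' H'} {S : Type} [TopologicalSpace S] [ChartedSpace H' S]

/-- `j` is the rotation by the angle `π / 2` of the tangent planes of the sphere `ι : S → R3`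
about the outward normal: `dι (j w) = ι z × dι w` for `w` tangent to `S` at `z`. For the unit
sphere, with `ι` the inclusion in `R3`, this is the complex structure of the Riemann sphere. -/
def IsRotation (ι : S → R3) (j : EndoField I' S) : Prop :=
  ∀ (z : S) (w : TangentSpace I' z), mvfderiv I' ι z (j z w) = cross (ι z) (mvfderiv I' ι z w)

/-- `om` is the area form of the sphere `ι : S → R3`: at `z` its value on the tangent vectors
`v`, `w` is `⟨ι z, dι v × dι w⟩`. -/
def IsArea (ι : S → R3) (om : SymplecticForm I' S) : Prop :=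
  ∀ (z : S) (v w : TangentSpace I' z),
    om.form z v w = inner ℝ (ι z) (cross (mvfderiv I' ι z v) (mvfderiv I' ι z w))

section RC

variable {E : Type*} [NormedAddCommGroup E] [NormedSpace ℝ E] {H : Type*} [TopologicalSpace H]
  {I : ModelWithCorners ℝ E H} {X : Type} [TopologicalSpace X] [ChartedSpace H X]

/-- Hypothesis `(RC_A)` for `(X, J)`, where `σ : H₂(S; ℤ)` is the fundamental class of the sphere
`S`: any two points of `X` lie on a rational `J`-holomorphic curve of class `A`. -/
def RC (j : EndoField I' S) (σ : H2 S) (J : AlmostComplex I X) (A : H2 X) : Prop :=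
  ∀ x y : X, ∃ C : RationalCurve j J, x ∈ C.image ∧ y ∈ C.image ∧ curveClass C σ = A

/-- A strong form of the hypothesis: any two points of `X` lie on a rational `J`-holomorphic curve
which has exactly `n` components, all of them injective maps `S → X` and any two of them with
different images, and whose class is `A σ` for every choice of `σ : H₂(S; ℤ)` as fundamental
class of `S`. -/
def StrongRC (j : EndoField I' S) (J : AlmostComplex I X) (n : ℕ) (A : H2 S → H2 X) : Prop :=
  ∀ x y : X, ∃ C : RationalCurve j J, x ∈ C.image ∧ y ∈ C.image ∧ C.n = n ∧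
    (∀ a, Function.Injective (C.u a)) ∧
    (∀ a b, a ≠ b → range (C.u a) ≠ range (C.u b)) ∧
    ∀ σ : H2 S, curveClass C σ = A σ

end RC

section Product

variable {E₁ : Type*} [NormedAddCommGroup E₁] [NormedSpace ℝ E₁] {H₁ : Type*} [TopologicalSpace H₁]
  {I₁ : ModelWithCorners ℝ E₁ H₁} {X₁ : Type*} [TopologicalSpace X₁] [ChartedSpace H₁ X₁]
  {E₂ : Type*} [NormedAddCommGroup E₂] [NormedSpace ℝ E₂] {H₂ : Type*} [TopologicalSpace H₂]
  {I₂ : ModelWithCorners ℝ E₂ H₂} {X₂ : Type*} [TopologicalSpace X₂] [ChartedSpace H₂ X₂]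

/-- `Ω` is the product of the symplectic forms `Ω₁` and `Ω₂`. -/
def IsProduct (Ω₁ : SymplecticForm I₁ X₁) (Ω₂ : SymplecticForm I₂ X₂)
    (Ω : SymplecticForm (I₁.prod I₂) (X₁ × X₂)) : Prop :=
  ∀ (x : X₁ × X₂) (v w : E₁ × E₂),
    (Ω.form x v w : ℝ) = Ω₁.form x.1 v.1 w.1 + Ω₂.form x.2 v.2 w.2

end Product

/-- On `X = S × S × Y`, with the product `Ω` of the symplectic forms `om`, `om` and `ΩY`, there is
an `Ω`-compatible almost complex structure `J` such that `(X, Ω, J)` satisfies `(RC_A)` for some
class `A`, in the strong form, and `X` has the fundamental group of `Y`. -/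
def HasRCProduct {F : Type} [NormedAddCommGroup F] [NormedSpace ℝ F] {H : Type}
    [TopologicalSpace H] {I : ModelWithCorners ℝ F H} {Y : Type} [TopologicalSpace Y]
    [ChartedSpace H Y] (j : EndoField I' S) (om : SymplecticForm I' S)
    (ΩY : SymplecticForm I Y) : Prop :=
  ∃ (Ω₁ : SymplecticForm (I'.prod I) (S × Y))
    (Ω : SymplecticForm (I'.prod (I'.prod I)) (S × (S × Y)))
    (J : AlmostComplex (I'.prod (I'.prod I)) (S × (S × Y))),
    IsProduct om ΩY Ω₁ ∧ IsProduct om Ω₁ Ω ∧ IsCompatible Ω J ∧
    (∃ (n : ℕ) (A : H2 S → H2 (S × (S × Y))), StrongRC j J n A) ∧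
    ∀ x : S × (S × Y), Nonempty (FundamentalGroup (S × (S × Y)) x ≃* FundamentalGroup Y x.2.2)

/-- There are a compact connected manifold `X` without boundary, of dimension `d`, a symplectic
form `Ω` on `X` and an `Ω`-compatible almost complex structure `J` such that `(X, Ω, J)` satisfies
`(RC_A)` for some class `A` (whichever class `σ` is the fundamental class of the sphere), but the
fundamental group of `X` is infinite. -/
def HasCounterexample (j : EndoField I' S) (d : ℕ) : Prop :=
    ∃ (E : Type) (_ : NormedAddCommGroup E) (_ : NormedSpace ℝ E) (_ : FiniteDimensional ℝ E)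
      (H : Type) (_ : TopologicalSpace H) (I : ModelWithCorners ℝ E H) (_ : I.Boundaryless)
      (X : Type) (_ : TopologicalSpace X) (_ : ChartedSpace H X) (_ : IsManifold I ∞ X)
      (_ : CompactSpace X) (_ : T2Space X) (_ : SecondCountableTopology X) (_ : ConnectedSpace X)
      (Ω : SymplecticForm I X) (J : AlmostComplex I X),
      Module.finrank ℝ E = d ∧ IsCompatible Ω J ∧ (∀ σ : H2 S, ∃ A : H2 X, RC j σ J A) ∧
      ¬ SimplyConnectedSpace X ∧ ∀ x : X, Infinite (FundamentalGroup X x)

variable (I') in
/-- The statement of the theorem, for the sphere `ι : S → R3` with model `I'`; it is used for the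
unit sphere. There are a rotation `j` and an area form `om` of `S` such that:
* for every closed connected symplectic manifold `Y` with form `ΩY` and with an `ΩY`-compatible
  almost complex structure, `S × S × Y` has a compatible almost complex structure which satisfies
  `(RC_A)`, and the fundamental group of `Y`;
* there are such manifolds with infinite fundamental group in all even dimensions `≥ 6`. -/
def Answer (ι : S → R3) : Prop :=
  ∃ (j : EndoField I' S) (om : SymplecticForm I' S), IsRotation ι j ∧ IsArea ι om ∧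
    (∀ (F : Type) [NormedAddCommGroup F] [NormedSpace ℝ F] [FiniteDimensional ℝ F]
      (H : Type) [TopologicalSpace H] (I : ModelWithCorners ℝ F H) [I.Boundaryless]
      (Y : Type) [TopologicalSpace Y] [ChartedSpace H Y] [IsManifold I ∞ Y]
      [CompactSpace Y] [T2Space Y] [ConnectedSpace Y]
      (ΩY : SymplecticForm I Y) (JY : AlmostComplex I Y),
      IsCompatible ΩY JY → HasRCProduct j om ΩY) ∧
    ∀ m : ℕ, 1 ≤ m → HasCounterexample j (2 * m + 4)

end Statement

/-- Let `j` and `om` be the complex structure and the area form of the unit sphere `P¹` of `R3`.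
For every closed connected symplectic manifold `Y` with a compatible almost complex structure the
product `P¹ × P¹ × Y` has a compatible almost complex structure with `(RC_A)` for some `A`, and the
fundamental group of `Y`. In particular the answer to the question is negative in every even
dimension at least six. -/
theorem result : Answer (𝓡 2) (fun z : P1 => (z : R3)) := by
  have gen : ∀ (F : Type) [NormedAddCommGroup F] [NormedSpace ℝ F] [FiniteDimensional ℝ F]
      (H : Type) [TopologicalSpace H] (I : ModelWithCorners ℝ F H) [I.Boundaryless]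
      (Y : Type) [TopologicalSpace Y] [ChartedSpace H Y] [IsManifold I ∞ Y]
      [CompactSpace Y] [T2Space Y] [ConnectedSpace Y]
      (ΩY : SymplecticForm I Y) (JY : AlmostComplex I Y),
      IsCompatible ΩY JY → ∃ J : AlmostComplex (IX I) (XY Y), IsCompatible (OX ΩY) J ∧
        ∃ (n : ℕ) (A : H2 P1 → H2 (XY Y)), StrongRC Pool.Agent.Helper206.Cover.jP1 J n A := by
    intro F _ _ _ H _ I _ Y _ _ _ _ _ _ ΩY JY hJ
    have : PathConnectedSpace Y := pathConnected_of_manifold I Y
    obtain ⟨L₀, hL₀, hc₀⟩ := exists_global (I := I) (Y := Y)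
    -- add one field, so that the list is not empty
    have hz : SmoothVF (I := I) (Y := Y) (fun _ => (0 : F)) := by
      intro x₀
      have : vfInChart (I := I) (Y := Y) (fun _ => (0 : F)) x₀ = fun _ => 0 := by
        funext e
        exact map_zero (Sc I x₀ ((extChartAt I x₀).symm e))
      rw [this]
      exact contDiffOn_const
    set L : List (VField I Y) := (fun _ => (0 : F)) :: L₀ with hLdef
    have hL : ∀ V ∈ L, SmoothVF V := by
      intro V hV
      rcases List.mem_cons.1 hV with h | h
      · rw [h]; exact hz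
      · exact hL₀ V h
    have hc : ∀ y y' : Y, Conn L y y' := fun y y' => ⟨y, Or.inl rfl, hc₀ y y'⟩
    have hL0 : 0 < L.length := by simp [hLdef]
    have y₀ : Y := Classical.arbitrary Y
    refine ⟨KX ΩY JY (smoothFam_Wf hL), compatible_KX hJ _, 2 * (2 * L.length + 1) + 1,
      Acl (2 * L.length + 1) y₀, ?_⟩
    rintro ⟨t, z, y⟩ ⟨t', z', y'⟩
    by_cases hne : ((z, y) : P1 × Y) = (z', y')
    · have h1 : z' = z := (congrArg Prod.fst hne).symm
      have h2 : y' = y := (congrArg Prod.snd hne).symm
      subst h1 h2
      obtain ⟨C, hC1, _, hC3, hC4, hC5, hC6⟩ := exists_chain' (Ω := ΩY) (K := JY) hL hL0 y₀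
        (z := z') (z' := -z') (hc y' y') (fun h => neg_ne_P1 z' (congrArg Prod.fst h).symm)
      exact ⟨C, hC1 ⟨t, rfl⟩, hC1 ⟨t', rfl⟩, hC3, hC4, hC5, hC6⟩
    · obtain ⟨C, hC1, hC2, hC3, hC4, hC5, hC6⟩ := exists_chain' (Ω := ΩY) (K := JY) hL hL0 y₀
        (hc y y') hne
      exact ⟨C, hC1 ⟨t, rfl⟩, hC2 ⟨t', rfl⟩, hC3, hC4, hC5, hC6⟩
  refine ⟨Pool.Agent.Helper206.Cover.jP1, areaS, Pool.Agent.Helper206.Cover.dInc_jP1,
    fun z v w => rfl, ?_, ?_⟩
  · intro F _ _ _ H _ I _ Y _ _ _ _ _ _ ΩY JY hJ
    obtain ⟨J, hJ1, hJ2⟩ := gen F H I Y ΩY JY hJ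
    exact ⟨prodSymp areaS ΩY, OX ΩY, J, fun x v w => rfl, fun x v w => rfl, hJ1, hJ2, pi1_X Y⟩
  · intro m hm
    have := pathConnected_P1
    have : Fact (Module.finrank ℝ R3 = 2 + 1) := ⟨by simp⟩
    have : SecondCountableTopology (ModelProd (EuclideanSpace ℝ (Fin 2))
        (ModelProd (EuclideanSpace ℝ (Fin 2)) (ModelProd (En m) (En m)))) :=
      inferInstanceAs (SecondCountableTopology (EuclideanSpace ℝ (Fin 2) ×
        (EuclideanSpace ℝ (Fin 2) × (En m × En m))))
    obtain ⟨J, hJ1, n, A, hA⟩ := gen _ _ (IY2 m) (Y2 m) (stdO m) (stdK m) (compatible_std m)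
    have hinf : ∀ x : XY (Y2 m), Infinite (FundamentalGroup (XY (Y2 m)) x) := by
      intro x
      obtain ⟨e⟩ := pi1_X (Y2 m) x
      have := infinite_pi1_Y2 (by omega : 0 < m) x.2.2
      exact Infinite.of_injective _ e.symm.injective
    refine ⟨_, inferInstance, inferInstance, inferInstance, _, inferInstance, IX (IY2 m),
      inferInstance, XY (Y2 m), inferInstance, inferInstance, inferInstance, inferInstance,
      inferInstance, ?_, inferInstance, OX (stdO m), J, ?_, hJ1, ?_, ?_, hinf⟩
    · exact ChartedSpace.secondCountable_of_sigmaCompact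
        (ModelProd (EuclideanSpace ℝ (Fin 2))
        (ModelProd (EuclideanSpace ℝ (Fin 2)) (ModelProd (En m) (En m)))) (XY (Y2 m))
    · simp [Module.finrank_prod]
      ring
    · intro σ
      refine ⟨A σ, fun x y => ?_⟩
      obtain ⟨C, hx, hy, _, _, _, h⟩ := hA x y
      exact ⟨C, hx, hy, h σ⟩
    · intro hs
      have x : XY (Y2 m) := Classical.arbitrary _
      have h1 := hinf x
      have h2 : Subsingleton (Path.Homotopic.Quotient x x) := inferInstance
      have h3 : Subsingleton (FundamentalGroup (XY (Y2 m)) x) := h2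
      exact not_finite (FundamentalGroup (XY (Y2 m)) x)

end Pool.Agent.Results.MP_3c8839_gt.AllFundamentalGroups
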